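import Pool.Agent.Helper9.MP.Lib
import Pool.Agent.Helper22.MP.COV

set_option autoImplicit false

/-! Module FOLD: integrals over regions with bounded overlap modulo `Γ₀(N)`. -/

namespace Pool.Agent.Helper96.MP

open Complex MeasureTheory Filter Topology
open scoped MatrixGroups ENNReal

theorem fold_SB : MeasurableSet SB := by
  have h1 : Measurable fun z : ℂ => |z.re| := Complex.measurable_re.abs
  exact (measurableSet_le h1 measurable_const).inter
    (measurableSet_le measurable_const Complex.measurable_im)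

theorem fold_UH : MeasurableSet UH := Lib.isOpen_UH.measurableSet

theorem fold_gsq1 (b : ℕ → ℂ) (z : ℂ) : gsq b 1 z = ‖qs b z‖ ^ 2 := by
  unfold gsq
  rw [Lib.mob_one]
  have h1 : jj 1 z = 1 := by
    unfold jj
    simp
  rw [h1]
  simp

/-- decomposition of `SL(2,ℤ)` into cosets -/
noncomputable def foldE (hC : ST_COS) {N : ℕ} (hN : 1 ≤ N) :
    PN N × CongruenceSubgroup.Gamma0 N ≃ SL(2, ℤ) :=
  Equiv.ofBijective (fun p => p.2.1 * rep N p.1) (by
    obtain ⟨h1, h2⟩ := hC N hN
    have h3 : ∀ (x : PN N) (γ : CongruenceSubgroup.Gamma0 N), cls N (γ.1 * rep N x) = x := by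
      intro x γ
      rw [← (h2 (rep N x) (γ.1 * rep N x)).2 (by rw [mul_inv_cancel_right]; exact γ.2), h1]
    refine ⟨?_, ?_⟩
    · rintro ⟨x, γ⟩ ⟨x', γ'⟩ h
      have h' : γ.1 * rep N x = γ'.1 * rep N x' := h
      have h4 : x = x' := by
        rw [← h3 x γ, h', h3 x' γ']
      subst h4
      have h5 : γ = γ' := Subtype.ext (mul_right_cancel h')
      rw [h5]
    · intro g
      have h4 : g * (rep N (cls N g))⁻¹ ∈ CongruenceSubgroup.Gamma0 N :=
        (h2 (rep N (cls N g)) g).1 (h1 (cls N g))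
      exact ⟨(cls N g, ⟨_, h4⟩), by simp⟩)

theorem foldE_apply (hC : ST_COS) {N : ℕ} (hN : 1 ≤ N)
    (p : PN N × CongruenceSubgroup.Gamma0 N) : foldE hC hN p = p.2.1 * rep N p.1 := rfl

/-- the number of overlaps as a sum -/
theorem fold_count {N m : ℕ} {ι : Type} (K : ι → Set ℂ) (z : ℂ)
    (hf : {u : SL(2, ℤ) × ι | u.1 ∈ CongruenceSubgroup.Gamma0 N ∧ mob u.1 z ∈ K u.2}.Finite)
    (hc : {u : SL(2, ℤ) × ι | u.1 ∈ CongruenceSubgroup.Gamma0 N ∧ mob u.1 z ∈ K u.2}.ncard ≤ m) :
    ∑' p : ι × CongruenceSubgroup.Gamma0 N, {p : ι × CongruenceSubgroup.Gamma0 N |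
      mob p.2.1 z ∈ K p.1}.indicator (fun _ => (1 : ℝ≥0∞)) p ≤ m := by
  rw [← tsum_subtype, ENNReal.tsum_set_one]
  have hinj : Function.Injective (fun p : ι × CongruenceSubgroup.Gamma0 N =>
      ((p.2.1, p.1) : SL(2, ℤ) × ι)) := by
    rintro ⟨i, γ⟩ ⟨i', γ'⟩ h
    rw [Prod.mk.injEq] at h
    rw [Prod.mk.injEq]
    exact ⟨h.2, Subtype.ext h.1⟩
  have h1 : {p : ι × CongruenceSubgroup.Gamma0 N | mob p.2.1 z ∈ K p.1}.encard ≤
      {u : SL(2, ℤ) × ι | u.1 ∈ CongruenceSubgroup.Gamma0 N ∧ mob u.1 z ∈ K u.2}.encard := by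
    rw [← hinj.encard_image]
    refine Set.encard_le_encard ?_
    rintro _ ⟨p, hp, rfl⟩
    exact ⟨p.2.2, hp⟩
  have h2 : {u : SL(2, ℤ) × ι | u.1 ∈ CongruenceSubgroup.Gamma0 N ∧ mob u.1 z ∈ K u.2}.encard ≤
      (m : ℕ∞) := by
    rw [← hf.cast_ncard_eq]
    exact_mod_cast hc
  have h3 := h1.trans h2
  exact_mod_cast (ENat.toENNReal_le.2 h3)

/-- the integral over `K` as a sum of integrals over the box -/
theorem fold_step {b : ℕ → ℂ} (F : ℂ → ℝ≥0∞) (hFm : Measurable F)
    (hF : ∀ z ∈ UH, F z = ENNReal.ofReal (‖qs b z‖ ^ 2)) {K : Set ℂ} (hK : MeasurableSet K)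
    (hKU : K ⊆ UH) :
    ∫⁻ z in K, F z ≤ ∑' g : SL(2, ℤ), ∫⁻ w in SB, {w | mob g w ∈ K}.indicator
      (fun w => ENNReal.ofReal (gsq b g w)) w := by
  have : Countable SL(2, ℤ) := cov_countable
  have hm : ∀ g : SL(2, ℤ), MeasurableSet {z | mob g z ∈ SB} := fun g =>
    cov_mob_meas g fold_SB
  have h1 : ∫⁻ z in K, F z ≤ ∫⁻ z in K, ∑' g : SL(2, ℤ), {z | mob g z ∈ SB}.indicator F z := by
    refine setLIntegral_mono' hK fun z hz => ?_
    obtain ⟨g, hg⟩ := Lib.exists_mob_SB (hKU hz)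
    refine le_trans (le_of_eq ?_) (ENNReal.le_tsum g)
    rw [Set.indicator_of_mem (show z ∈ {z | mob g z ∈ SB} from hg)]
  refine h1.trans ?_
  rw [lintegral_tsum fun g => (hFm.indicator (hm g)).aemeasurable]
  have h2 : ∀ g : SL(2, ℤ), ∫⁻ z in K, {z | mob g z ∈ SB}.indicator F z =
      ∫⁻ w in SB, {w | mob g⁻¹ w ∈ K}.indicator (fun w => ENNReal.ofReal (gsq b g⁻¹ w)) w := by
    intro g
    have hB : MeasurableSet (SB ∩ {w | mob g⁻¹ w ∈ K}) :=
      fold_SB.inter (cov_mob_meas g⁻¹ hK)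
    have hBU : SB ∩ {w | mob g⁻¹ w ∈ K} ⊆ UH := fun w hw => Lib.SB_sub_UH hw.1
    have e1 : K ∩ {z | mob g z ∈ SB} = mob g⁻¹ '' (SB ∩ {w | mob g⁻¹ w ∈ K}) := by
      ext z
      constructor
      · rintro ⟨hz, hz2⟩
        refine ⟨mob g z, ⟨hz2, ?_⟩, Lib.mob_inv_mob g (hKU hz)⟩
        show mob g⁻¹ (mob g z) ∈ K
        rw [Lib.mob_inv_mob g (hKU hz)]
        exact hz
      · rintro ⟨w, ⟨hw, hw2⟩, rfl⟩
        refine ⟨hw2, ?_⟩
        show mob g (mob g⁻¹ w) ∈ SB
        rw [Lib.mob_mob_inv g (Lib.SB_sub_UH hw)]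
        exact hw
    rw [setLIntegral_indicator (hm g), Set.inter_comm, e1, cov_change g⁻¹ hB hBU,
      setLIntegral_indicator (show MeasurableSet {w | mob g⁻¹ w ∈ K} from cov_mob_meas g⁻¹ hK),
      Set.inter_comm {w | mob g⁻¹ w ∈ K} SB]
    refine setLIntegral_congr_fun hB fun w hw => ?_
    have hwU : w ∈ UH := hBU hw
    show ENNReal.ofReal ((‖jj g⁻¹ w‖ ^ 4)⁻¹) * F (mob g⁻¹ w) = ENNReal.ofReal (gsq b g⁻¹ w)
    rw [hF _ (Lib.mob_mem g⁻¹ hwU), ← ENNReal.ofReal_mul (by positivity)]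
    congr 1
    unfold gsq
    rw [div_eq_inv_mul]
  simp only [h2]
  have h3 := (Equiv.inv SL(2, ℤ)).tsum_eq (fun g : SL(2, ℤ) => ∫⁻ w in SB,
    {w | mob g w ∈ K}.indicator (fun w => ENNReal.ofReal (gsq b g w)) w)
  simp only [Equiv.inv_apply] at h3
  rw [h3]

/-- **Module FOLD.** -/
theorem st_FOLD (hC : ST_COS) (hNR : ST_NRM) (hPN : ST_PNF) : ST_FOLD := by
  intro N b hN hb ι _ K m hKm hKU hcount
  classical
  have : Countable SL(2, ℤ) := cov_countable
  have : Countable ι := Finite.to_countable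
  have hPfin : Finite (PN N) := (hPN N hN).1
  have _ := Fintype.ofFinite (PN N)
  have hPc : Countable (PN N) := Finite.to_countable
  have hqc : ContinuousOn (fun z => ‖qs b z‖ ^ 2) UH := by
    have h1 := (hNR.1 N b hN hb 1).1
    have h2 : gsq b 1 = fun z => ‖qs b z‖ ^ 2 := funext (fold_gsq1 b)
    rwa [h2] at h1
  obtain ⟨F, hFdef⟩ : ∃ F : ℂ → ℝ≥0∞,
      F = fun z => ENNReal.ofReal (UH.indicator (fun z => ‖qs b z‖ ^ 2) z) := ⟨_, rfl⟩
  have hFm : Measurable F := by
    rw [hFdef]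
    have h1 := ContinuousOn.measurable_piecewise (f := fun z => ‖qs b z‖ ^ 2) (g := (0 : ℂ → ℝ))
      (s := UH) hqc continuousOn_const fold_UH
    rw [Set.piecewise_eq_indicator] at h1
    exact h1.ennreal_ofReal
  have hF : ∀ z ∈ UH, F z = ENNReal.ofReal (‖qs b z‖ ^ 2) := by
    intro z hz
    rw [hFdef]
    show ENNReal.ofReal (UH.indicator (fun z => ‖qs b z‖ ^ 2) z) = _
    rw [Set.indicator_of_mem hz]
  -- measurability of the pieces
  have hgm : ∀ x : PN N, Measurable (SB.indicator fun w => ENNReal.ofReal (gsq b (rep N x) w)) := by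
    intro x
    have h1 := ((hNR.1 N b hN hb (rep N x)).1.mono Lib.SB_sub_UH)
    have h2 := ContinuousOn.measurable_piecewise (f := gsq b (rep N x)) (g := (0 : ℂ → ℝ))
      (s := SB) h1 continuousOn_const fold_SB
    rw [Set.piecewise_eq_indicator] at h2
    have h3 : (SB.indicator fun w => ENNReal.ofReal (gsq b (rep N x) w)) =
        fun w => ENNReal.ofReal (SB.indicator (gsq b (rep N x)) w) := by
      funext w
      by_cases hw : w ∈ SB
      · rw [Set.indicator_of_mem hw, Set.indicator_of_mem hw]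
      · rw [Set.indicator_of_notMem hw, Set.indicator_of_notMem hw, ENNReal.ofReal_zero]
    rw [h3]
    exact h2.ennreal_ofReal
  have hnrm0 : ∀ x : PN N, 0 ≤ ∫ z in SB, gsq b (rep N x) z := fun x =>
    (hNR.1 N b hN hb (rep N x)).2.2.1
  have hnrm : ∑ x : PN N, ∫⁻ w in SB, ENNReal.ofReal (gsq b (rep N x) w) =
      ENNReal.ofReal (nrm N b) := by
    unfold nrm
    rw [finsum_eq_sum_of_fintype, ENNReal.ofReal_sum_of_nonneg fun x _ => hnrm0 x]
    refine Finset.sum_congr rfl fun x _ => ?_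
    rw [ofReal_integral_eq_lintegral_ofReal (hNR.1 N b hN hb (rep N x)).2.1
      (Eventually.of_forall fun z => Lib.gsq_nonneg b _ z)]
  have hnn : 0 ≤ nrm N b := by
    unfold nrm
    rw [finsum_eq_sum_of_fintype]
    exact Finset.sum_nonneg fun x _ => hnrm0 x
  -- main inequality
  have main : ∑ i, ∫⁻ z in K i, F z ≤ m * ENNReal.ofReal (nrm N b) := by
    have s1 : ∑ i, ∫⁻ z in K i, F z ≤ ∑' i, ∑' g : SL(2, ℤ), ∫⁻ w in SB,
        {w | mob g w ∈ K i}.indicator (fun w => ENNReal.ofReal (gsq b g w)) w := by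
      rw [tsum_fintype]
      exact Finset.sum_le_sum fun i _ => fold_step F hFm hF (hKm i) (hKU i)
    refine s1.trans ?_
    have s2 : ∀ i, (∑' g : SL(2, ℤ), ∫⁻ w in SB,
        {w | mob g w ∈ K i}.indicator (fun w => ENNReal.ofReal (gsq b g w)) w) =
        ∑' x : PN N, ∑' γ : CongruenceSubgroup.Gamma0 N, ∫⁻ w in SB,
          {w | mob γ.1 (mob (rep N x) w) ∈ K i}.indicator
            (fun w => ENNReal.ofReal (gsq b (rep N x) w)) w := by
      intro i
      rw [← (foldE hC hN).tsum_eq, ENNReal.tsum_prod']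
      refine tsum_congr fun x => tsum_congr fun γ => ?_
      rw [foldE_apply]
      refine setLIntegral_congr_fun fold_SB fun w hw => ?_
      have hwU : w ∈ UH := Lib.SB_sub_UH hw
      show {w | mob (γ.1 * rep N x) w ∈ K i}.indicator
          (fun w => ENNReal.ofReal (gsq b (γ.1 * rep N x) w)) w =
        {w | mob γ.1 (mob (rep N x) w) ∈ K i}.indicator
          (fun w => ENNReal.ofReal (gsq b (rep N x) w)) w
      have e1 : mob (γ.1 * rep N x) w = mob γ.1 (mob (rep N x) w) := Lib.mob_mul _ _ hwU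
      have e2 : gsq b (γ.1 * rep N x) w = gsq b (rep N x) w := Lib.gsq_inv hb γ.2 _ hwU
      by_cases h : mob γ.1 (mob (rep N x) w) ∈ K i
      · rw [Set.indicator_of_mem (show w ∈ {w | mob (γ.1 * rep N x) w ∈ K i} by
          show mob (γ.1 * rep N x) w ∈ K i
          rw [e1]; exact h), Set.indicator_of_mem (show w ∈
            {w | mob γ.1 (mob (rep N x) w) ∈ K i} from h), e2]
      · rw [Set.indicator_of_notMem (show w ∉ {w | mob (γ.1 * rep N x) w ∈ K i} by
          show ¬ mob (γ.1 * rep N x) w ∈ K i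
          rw [e1]; exact h), Set.indicator_of_notMem (show w ∉
            {w | mob γ.1 (mob (rep N x) w) ∈ K i} from h)]
    simp only [s2]
    rw [ENNReal.tsum_comm]
    have s3 : ∀ x : PN N, (∑' i, ∑' γ : CongruenceSubgroup.Gamma0 N, ∫⁻ w in SB,
          {w | mob γ.1 (mob (rep N x) w) ∈ K i}.indicator
            (fun w => ENNReal.ofReal (gsq b (rep N x) w)) w) ≤
        m * ∫⁻ w in SB, ENNReal.ofReal (gsq b (rep N x) w) := by
      intro x
      rw [← ENNReal.tsum_prod (f := fun (i : ι) (γ : CongruenceSubgroup.Gamma0 N) => ∫⁻ w in SB,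
          {w | mob γ.1 (mob (rep N x) w) ∈ K i}.indicator
            (fun w => ENNReal.ofReal (gsq b (rep N x) w)) w)]
      have t1 : ∀ p : ι × CongruenceSubgroup.Gamma0 N, (∫⁻ w in SB,
          {w | mob p.2.1 (mob (rep N x) w) ∈ K p.1}.indicator
            (fun w => ENNReal.ofReal (gsq b (rep N x) w)) w) =
          ∫⁻ w, {w | mob p.2.1 (mob (rep N x) w) ∈ K p.1}.indicator
            (SB.indicator fun w => ENNReal.ofReal (gsq b (rep N x) w)) w := by
        intro p
        rw [← lintegral_indicator fold_SB]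
        refine lintegral_congr fun w => ?_
        rw [Set.indicator_indicator, Set.indicator_indicator, Set.inter_comm]
      simp only [t1]
      have hmp : ∀ p : ι × CongruenceSubgroup.Gamma0 N,
          MeasurableSet {w | mob p.2.1 (mob (rep N x) w) ∈ K p.1} := fun p =>
        ((cov_mob_meas p.2.1).comp (cov_mob_meas (rep N x))) (hKm p.1)
      rw [← lintegral_tsum fun p => ((hgm x).indicator (hmp p)).aemeasurable,
        ← lintegral_const_mul' _ _ (ENNReal.natCast_ne_top m), ← lintegral_indicator fold_SB]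
      refine lintegral_mono fun w => ?_
      show (∑' p : ι × CongruenceSubgroup.Gamma0 N,
          {w | mob p.2.1 (mob (rep N x) w) ∈ K p.1}.indicator
            (SB.indicator fun w => ENNReal.ofReal (gsq b (rep N x) w)) w) ≤
        SB.indicator (fun w => m * ENNReal.ofReal (gsq b (rep N x) w)) w
      by_cases hw : w ∈ SB
      · rw [Set.indicator_of_mem hw]
        have hz : mob (rep N x) w ∈ UH := Lib.mob_mem _ (Lib.SB_sub_UH hw)
        have t2 : ∀ p : ι × CongruenceSubgroup.Gamma0 N,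
            {w | mob p.2.1 (mob (rep N x) w) ∈ K p.1}.indicator
              (SB.indicator fun w => ENNReal.ofReal (gsq b (rep N x) w)) w =
            {p : ι × CongruenceSubgroup.Gamma0 N |
              mob p.2.1 (mob (rep N x) w) ∈ K p.1}.indicator (fun _ => (1 : ℝ≥0∞)) p *
              ENNReal.ofReal (gsq b (rep N x) w) := by
          intro p
          by_cases h : mob p.2.1 (mob (rep N x) w) ∈ K p.1
          · rw [Set.indicator_of_mem (show w ∈ {w | mob p.2.1 (mob (rep N x) w) ∈ K p.1} from h),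
              Set.indicator_of_mem hw, Set.indicator_of_mem (show p ∈
                {p : ι × CongruenceSubgroup.Gamma0 N | mob p.2.1 (mob (rep N x) w) ∈ K p.1} from h),
              one_mul]
          · rw [Set.indicator_of_notMem (show w ∉
                {w | mob p.2.1 (mob (rep N x) w) ∈ K p.1} from h),
              Set.indicator_of_notMem (show p ∉
                {p : ι × CongruenceSubgroup.Gamma0 N | mob p.2.1 (mob (rep N x) w) ∈ K p.1} from h),
              zero_mul]
        simp only [t2]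
        rw [ENNReal.tsum_mul_right]
        exact mul_le_mul_left (fold_count K _ (hcount _ hz).1 (hcount _ hz).2) _
      · rw [Set.indicator_of_notMem hw]
        refine le_of_eq ?_
        rw [ENNReal.tsum_eq_zero]
        intro p
        rw [Set.indicator_indicator, Set.indicator_of_notMem fun h => hw h.2]
    refine (ENNReal.tsum_le_tsum s3).trans ?_
    rw [ENNReal.tsum_mul_left, tsum_fintype, hnrm]
  have hlt : ∀ i, ∫⁻ z in K i, F z < ⊤ := by
    intro i
    refine lt_of_le_of_lt ((Finset.single_le_sum (f := fun i => ∫⁻ z in K i, F z)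
      (fun _ _ => zero_le) (Finset.mem_univ i)).trans main) ?_
    exact ENNReal.mul_lt_top (ENNReal.natCast_lt_top m) ENNReal.ofReal_lt_top
  have hFK : ∀ i, ∫⁻ z in K i, F z = ∫⁻ z in K i, ENNReal.ofReal (‖qs b z‖ ^ 2) := fun i =>
    setLIntegral_congr_fun (hKm i) fun z hz => hF z (hKU i hz)
  have hint : ∀ i, IntegrableOn (fun z => ‖qs b z‖ ^ 2) (K i) := by
    intro i
    refine ⟨(hqc.mono (hKU i)).aestronglyMeasurable (hKm i), ?_⟩
    rw [hasFiniteIntegral_iff_ofReal (Eventually.of_forall fun z => by positivity), ← hFK i]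
    exact hlt i
  refine ⟨hint, ?_⟩
  have h5 : ENNReal.ofReal (∑ i, ∫ z in K i, ‖qs b z‖ ^ 2) ≤ ENNReal.ofReal (m * nrm N b) := by
    rw [ENNReal.ofReal_sum_of_nonneg fun i _ => integral_nonneg fun z => by positivity,
      ENNReal.ofReal_mul (Nat.cast_nonneg m), ENNReal.ofReal_natCast]
    refine le_trans (le_of_eq ?_) main
    refine Finset.sum_congr rfl fun i _ => ?_
    rw [hFK i, ofReal_integral_eq_lintegral_ofReal (hint i)
      (Eventually.of_forall fun z => by positivity)]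
  exact (ENNReal.ofReal_le_ofReal_iff (mul_nonneg (Nat.cast_nonneg m) hnn)).1 h5

end Pool.Agent.Helper96.MP
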