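import Pool.Agent.Helper9.MP.Amp

set_option autoImplicit false

/-! Module DIMK: dimension bounded by the integral of a pointwise bound. -/

namespace Pool.Agent.Helper96.MP

open Complex MeasureTheory Filter Topology
open scoped ComplexConjugate

/-- an orthonormal basis of a positive definite Hermitian form -/
theorem dimk_basis (V : Type) [AddCommGroup V] [Module ℂ V] [FiniteDimensional ℂ V]
    (B : V → V → ℂ) (h1 : ∀ x y, conj (B y x) = B x y) (h2 : ∀ x, 0 ≤ (B x x).re)
    (h3 : ∀ x y z, B (x + y) z = B x z + B y z) (h4 : ∀ x y (r : ℂ), B (r • x) y = conj r * B x y)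
    (h5 : ∀ x, B x x = 0 → x = 0) :
    ∃ e : Fin (Module.finrank ℂ V) → V, ∀ c : Fin (Module.finrank ℂ V) → ℂ,
      B (∑ i, c i • e i) (∑ i, c i • e i) = ∑ i, conj (c i) * c i := by
  let cd : InnerProductSpace.Core ℂ V :=
    { inner := B
      conj_inner_symm := h1
      re_inner_nonneg := h2
      add_left := h3
      smul_left := h4
      definite := h5 }
  let _ : NormedAddCommGroup V := cd.toNormedAddCommGroup
  let _ : InnerProductSpace ℂ V := InnerProductSpace.ofCore cd.toCore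
  refine ⟨stdOrthonormalBasis ℂ V, fun c => ?_⟩
  exact (stdOrthonormalBasis ℂ V).orthonormal.inner_sum c c Finset.univ

theorem dimk_main (P : Type) [Fintype P] (V : Type) [AddCommGroup V] [Module ℂ V]
    [FiniteDimensional ℂ V] (Φ : V →ₗ[ℂ] (P → ℂ → ℂ)) (A : Set ℂ) (κ : P → ℂ → ℝ)
    (hA : MeasurableSet A) (hc : ∀ v x, ContinuousOn (Φ v x) A)
    (hi : ∀ v x, IntegrableOn (fun z => ‖Φ v x z‖ ^ 2) A) (hκ : ∀ x, IntegrableOn (κ x) A)
    (hκ0 : ∀ x, ∀ z ∈ A, 0 ≤ κ x z)
    (hd : ∀ v, (∀ x, ∀ z ∈ A, Φ v x z = 0) → v = 0)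
    (hb : ∀ v x, ∀ z ∈ A, ‖Φ v x z‖ ^ 2 ≤ κ x z * ∑ y, ∫ u in A, ‖Φ v y u‖ ^ 2) :
    (Module.finrank ℂ V : ℝ) ≤ ∑ x, ∫ z in A, κ x z := by
  have hm : ∀ v x, MemLp (Φ v x) 2 (volume.restrict A) := fun v x =>
    (memLp_two_iff_integrable_sq_norm ((hc v x).aestronglyMeasurable hA)).2 (hi v x)
  have hm' : ∀ v x, MemLp (fun z => conj (Φ v x z)) 2 (volume.restrict A) := fun v x =>
    (hm v x).of_le (Complex.continuous_conj.comp_aestronglyMeasurable (hm v x).1)
      (Eventually.of_forall fun z => by rw [RCLike.norm_conj])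
  have hint : ∀ u v x, Integrable (fun z => conj (Φ u x z) * Φ v x z) (volume.restrict A) :=
    fun u v x => (hm' u x).integrable_mul (hm v x)
  obtain ⟨B, hB⟩ : ∃ B : V → V → ℂ, ∀ u v, B u v = ∑ x, ∫ z in A, conj (Φ u x z) * Φ v x z :=
    ⟨_, fun _ _ => rfl⟩
  have hBB : ∀ v, B v v = ((∑ y, ∫ u in A, ‖Φ v y u‖ ^ 2 : ℝ) : ℂ) := by
    intro v
    rw [hB, Complex.ofReal_sum]
    refine Finset.sum_congr rfl fun x _ => ?_
    refine Eq.trans ?_ (integral_ofReal (𝕜 := ℂ))
    refine integral_congr_ae (Eventually.of_forall fun z => ?_)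
    show conj (Φ v x z) * Φ v x z = ((‖Φ v x z‖ ^ 2 : ℝ) : ℂ)
    rw [mul_comm, Complex.mul_conj, Complex.normSq_eq_norm_sq]
  have hN0 : ∀ v, 0 ≤ ∑ y, ∫ u in A, ‖Φ v y u‖ ^ 2 := fun v =>
    Finset.sum_nonneg fun y _ => integral_nonneg fun u => by positivity
  obtain ⟨e, he⟩ := dimk_basis V B
    (fun x y => by
      rw [hB, hB, map_sum]
      refine Finset.sum_congr rfl fun p _ => ?_
      rw [← integral_conj]
      refine integral_congr_ae (Eventually.of_forall fun z => ?_)
      show conj (conj (Φ y p z) * Φ x p z) = conj (Φ x p z) * Φ y p z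
      rw [map_mul, Complex.conj_conj, mul_comm])
    (fun x => by
      rw [hBB, Complex.ofReal_re]
      exact hN0 x)
    (fun x y z => by
      rw [hB, hB, hB, ← Finset.sum_add_distrib]
      refine Finset.sum_congr rfl fun p _ => ?_
      rw [← integral_add (hint x z p) (hint y z p)]
      refine integral_congr_ae (Eventually.of_forall fun w => ?_)
      show conj (Φ (x + y) p w) * Φ z p w = conj (Φ x p w) * Φ z p w + conj (Φ y p w) * Φ z p w
      rw [map_add, Pi.add_apply, Pi.add_apply, map_add, add_mul])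
    (fun x y r => by
      rw [hB, hB, Finset.mul_sum]
      refine Finset.sum_congr rfl fun p _ => ?_
      rw [← integral_const_mul]
      refine integral_congr_ae (Eventually.of_forall fun w => ?_)
      show conj (Φ (r • x) p w) * Φ y p w = conj r * (conj (Φ x p w) * Φ y p w)
      rw [map_smul, Pi.smul_apply, Pi.smul_apply, smul_eq_mul, map_mul, mul_assoc])
    (fun x hx => by
      refine hd x fun p z hz => ?_
      have h1 := hb x p z hz
      rw [hBB, Complex.ofReal_eq_zero] at hx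
      rw [hx, mul_zero] at h1
      have h2 : ‖Φ x p z‖ = 0 := by
        have h3 : ‖Φ x p z‖ ^ 2 = 0 := le_antisymm h1 (by positivity)
        exact pow_eq_zero_iff (two_ne_zero) |>.1 h3
      exact norm_eq_zero.1 h2)
  -- norms of the basis vectors
  have hN1 : ∀ i, ∑ y, ∫ u in A, ‖Φ (e i) y u‖ ^ 2 = 1 := by
    intro i
    have h1 := he (Pi.single i 1)
    have h2 : ∑ j, (Pi.single i (1 : ℂ) : Fin (Module.finrank ℂ V) → ℂ) j • e j = e i := by
      rw [Finset.sum_eq_single i]
      · rw [Pi.single_eq_same, one_smul]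
      · intro j _ hj
        rw [Pi.single_eq_of_ne hj, zero_smul]
      · intro h
        exact absurd (Finset.mem_univ i) h
    have h3 : ∑ j, conj ((Pi.single i (1 : ℂ) : Fin (Module.finrank ℂ V) → ℂ) j) *
        (Pi.single i (1 : ℂ) : Fin (Module.finrank ℂ V) → ℂ) j = 1 := by
      rw [Finset.sum_eq_single i]
      · rw [Pi.single_eq_same]
        simp
      · intro j _ hj
        rw [Pi.single_eq_of_ne hj, mul_zero]
      · intro h
        exact absurd (Finset.mem_univ i) h
    rw [h2, h3, hBB] at h1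
    exact_mod_cast h1
  -- pointwise bound
  have hpt : ∀ x, ∀ z ∈ A, ∑ i, ‖Φ (e i) x z‖ ^ 2 ≤ κ x z := by
    intro x z hz
    have h1 := hb (∑ i, conj (Φ (e i) x z) • e i) x z hz
    have h2 : Φ (∑ i, conj (Φ (e i) x z) • e i) x z = ((∑ i, ‖Φ (e i) x z‖ ^ 2 : ℝ) : ℂ) := by
      rw [map_sum, Finset.sum_apply, Finset.sum_apply, Complex.ofReal_sum]
      refine Finset.sum_congr rfl fun i _ => ?_
      rw [map_smul, Pi.smul_apply, Pi.smul_apply, smul_eq_mul, mul_comm, Complex.mul_conj,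
        Complex.normSq_eq_norm_sq]
    have h3 : ∑ y, ∫ u in A, ‖Φ (∑ i, conj (Φ (e i) x z) • e i) y u‖ ^ 2 =
        ∑ i, ‖Φ (e i) x z‖ ^ 2 := by
      have h4 := he fun i => conj (Φ (e i) x z)
      rw [hBB] at h4
      have h5 : ∑ i, conj (conj (Φ (e i) x z)) * conj (Φ (e i) x z) =
          ((∑ i, ‖Φ (e i) x z‖ ^ 2 : ℝ) : ℂ) := by
        rw [Complex.ofReal_sum]
        refine Finset.sum_congr rfl fun i _ => ?_
        rw [Complex.conj_conj, Complex.mul_conj, Complex.normSq_eq_norm_sq]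
      rw [h5] at h4
      exact_mod_cast h4
    have h6 : 0 ≤ ∑ i, ‖Φ (e i) x z‖ ^ 2 := Finset.sum_nonneg fun i _ => by positivity
    rw [h2, h3, Complex.norm_real, Real.norm_eq_abs, sq_abs, sq] at h1
    rcases h6.eq_or_lt with h7 | h7
    · rw [← h7]
      exact hκ0 x z hz
    · exact le_of_mul_le_mul_right h1 h7
  calc (Module.finrank ℂ V : ℝ) = ∑ i : Fin (Module.finrank ℂ V), (1 : ℝ) := by simp
    _ = ∑ i : Fin (Module.finrank ℂ V), ∑ y, ∫ u in A, ‖Φ (e i) y u‖ ^ 2 :=
        Finset.sum_congr rfl fun i _ => (hN1 i).symm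
    _ = ∑ y, ∫ u in A, ∑ i : Fin (Module.finrank ℂ V), ‖Φ (e i) y u‖ ^ 2 := by
        rw [Finset.sum_comm]
        refine Finset.sum_congr rfl fun y _ => ?_
        rw [integral_finsetSum]
        intro i _
        exact hi (e i) y
    _ ≤ ∑ x, ∫ z in A, κ x z := by
        refine Finset.sum_le_sum fun x _ => ?_
        exact setIntegral_mono_on (integrable_finsetSum _ fun i _ => hi (e i) x) (hκ x) hA
          fun z hz => hpt x z hz

/-- **Module DIMK.** -/
theorem st_DIMK : ST_DIMK := fun P _ V _ _ _ Φ A κ hA hc hi hκ hκ0 hd hb =>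
  dimk_main P V Φ A κ hA hc hi hκ hκ0 hd hb

end Pool.Agent.Helper96.MP
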