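import Pool.Agent.Helper96.MP.Defs
import Pool.Agent.Helper71.Dil.WEYL
import Pool.Agent.Helper13.Dil.STOKES

set_option autoImplicit false

/-! Module WEYL2: Weyl's lemma on discs for sequences. -/

namespace Pool.Agent.Helper96.MP

open Complex MeasureTheory Filter Topology Metric
open Pool.Agent.Helper73.Dil (B1 PTest WClosed tc dx dy)

/-! ### preliminaries -/

theorem weyl2_cast {u : ℂ → ℝ} {z : ℂ} (hu : DifferentiableAt ℝ u z) (v : ℂ) :
    fderiv ℝ (fun w => ((u w : ℝ) : ℂ)) z v = ((fderiv ℝ u z v : ℝ) : ℂ) := by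
  have h := (Complex.ofRealCLM.hasFDerivAt (x := u z)).comp z hu.hasFDerivAt
  have h2 : fderiv ℝ (fun w => ((u w : ℝ) : ℂ)) z = Complex.ofRealCLM.comp (fderiv ℝ u z) :=
    h.fderiv
  rw [h2]
  rfl

theorem weyl2_re {a : ℂ → ℂ} {z : ℂ} (ha : DifferentiableAt ℝ a z) (v : ℂ) :
    fderiv ℝ (fun w => (a w).re) z v = (fderiv ℝ a z v).re := by
  have h := (Complex.reCLM.hasFDerivAt (x := a z)).comp z ha.hasFDerivAt
  have h2 : fderiv ℝ (fun w => (a w).re) z = Complex.reCLM.comp (fderiv ℝ a z) := h.fderiv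
  rw [h2]
  rfl

theorem weyl2_im {a : ℂ → ℂ} {z : ℂ} (ha : DifferentiableAt ℝ a z) (v : ℂ) :
    fderiv ℝ (fun w => (a w).im) z v = (fderiv ℝ a z v).im := by
  have h := (Complex.imCLM.hasFDerivAt (x := a z)).comp z ha.hasFDerivAt
  have h2 : fderiv ℝ (fun w => (a w).im) z = Complex.imCLM.comp (fderiv ℝ a z) := h.fderiv
  rw [h2]
  rfl

theorem weyl2_supp {X Y Z : Type} [TopologicalSpace X] [Zero Y] [Zero Z] {f : X → Y} {g : X → Z}
    (h : ∀ x, f x = 0 → g x = 0) : tsupport g ⊆ tsupport f :=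
  closure_mono fun x hx h0 => hx (h x h0)

theorem weyl2_fin (z0 : ℂ) (r : ℝ) : IsFiniteMeasure (volume.restrict (ball z0 r)) :=
  ⟨by rw [Measure.restrict_apply_univ]; exact measure_ball_lt_top⟩

theorem weyl2_cc {z0 : ℂ} {R : ℝ} {u : ℂ → ℝ} (hu : ContDiffOn ℝ (⊤ : ℕ∞) u (ball z0 R)) :
    ContinuousOn (cc u) (ball z0 R) := by
  have h1 : ContinuousOn (fderiv ℝ u) (ball z0 R) :=
    hu.continuousOn_fderiv_of_isOpen isOpen_ball (by simp)
  have h2 : ∀ v : ℂ, ContinuousOn (fun z => ((fderiv ℝ u z v : ℝ) : ℂ)) (ball z0 R) := fun v =>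
    Complex.continuous_ofReal.comp_continuousOn (h1.clm_apply continuousOn_const)
  exact (h2 1).sub (continuousOn_const.mul (h2 I))

theorem weyl2_mem {z0 : ℂ} {r : ℝ} (hr : 0 < r) {F : ℂ → ℂ}
    (hF : ContinuousOn F (ball z0 (2 * r))) : MemLp F 2 (volume.restrict (ball z0 r)) := by
  have := weyl2_fin z0 r
  have hsub : closedBall z0 r ⊆ ball z0 (2 * r) := closedBall_subset_ball (by linarith)
  obtain ⟨C, hC⟩ := (isCompact_closedBall z0 r).exists_bound_of_continuousOn (hF.mono hsub)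
  refine MemLp.of_bound ((hF.mono (ball_subset_closedBall.trans hsub)).aestronglyMeasurable
    measurableSet_ball) C ?_
  filter_upwards [ae_restrict_mem measurableSet_ball] with z hz
  exact hC z (ball_subset_closedBall hz)

theorem weyl2_norm {μ : Measure ℂ} (f : Lp ℂ 2 μ) : ‖f‖ ^ 2 = ∫ z, ‖f z‖ ^ 2 ∂μ := by
  rw [← real_inner_self_eq_norm_sq, L2.inner_def]
  apply integral_congr_ae
  refine Eventually.of_forall fun x => ?_
  show inner ℝ (f x) (f x) = ‖f x‖ ^ 2
  rw [real_inner_self_eq_norm_sq]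

/-- pairing with a fixed bounded function -/
theorem weyl2_pair {μ : Measure ℂ} {φ : ℂ → ℂ} (hφ : MemLp φ 2 μ) {f : ℕ → Lp ℂ 2 μ}
    {c : Lp ℂ 2 μ} (hc : Tendsto f atTop (𝓝 c)) :
    Tendsto (fun j => ∫ z, (f j) z * φ z ∂μ) atTop (𝓝 (∫ z, c z * φ z ∂μ)) := by
  have hψ : MemLp (fun z => (starRingEnd ℂ) (φ z)) 2 μ := by
    refine hφ.of_le (Complex.continuous_conj.comp_aestronglyMeasurable hφ.1)
      (Eventually.of_forall fun z => ?_)
    rw [RCLike.norm_conj]
  have h1 : ∀ g : Lp ℂ 2 μ, ∫ z, g z * φ z ∂μ = inner ℂ (hψ.toLp _) g := by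
    intro g
    rw [L2.inner_def]
    refine integral_congr_ae ?_
    filter_upwards [hψ.coeFn_toLp] with z hz
    rw [hz, RCLike.inner_apply]
    simp
  simp only [h1]
  exact Filter.Tendsto.inner tendsto_const_nhds hc

/-- the multiplier attached to a test function -/
noncomputable def weyl2_ph (a : ℂ → ℝ) (z : ℂ) : ℂ := (uy a z : ℂ) - I * (ux a z : ℂ)

theorem weyl2_ph_cont {a : ℂ → ℝ} (ha : ContDiff ℝ (⊤ : ℕ∞) a) : Continuous (weyl2_ph a) := by
  have h1 : Continuous (fderiv ℝ a) := ha.continuous_fderiv (by simp)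
  have h2 : ∀ v : ℂ, Continuous (fun z => ((fderiv ℝ a z v : ℝ) : ℂ)) := fun v =>
    Complex.continuous_ofReal.comp (h1.clm_apply continuous_const)
  exact (h2 I).sub (continuous_const.mul (h2 1))

theorem weyl2_int {r : ℝ} {z0 : ℂ} (hr : 0 < r) {F : ℂ → ℂ}
    (hF : ContinuousOn F (ball z0 (2 * r))) : Integrable F (volume.restrict (ball z0 r)) := by
  have := weyl2_fin z0 r
  exact (weyl2_mem hr hF).integrable (by norm_num)

theorem weyl2_stokes {u a : ℂ → ℝ} (hu : ContDiffOn ℝ (⊤ : ℕ∞) u (ball 0 2))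
    (ha : ContDiff ℝ (⊤ : ℕ∞) a) (hc : HasCompactSupport a) (hs : tsupport a ⊆ ball 0 1) :
    ∫ z in ball (0 : ℂ) 1, cc u z * weyl2_ph a z =
      -I * ((∫ z in ball (0 : ℂ) 1, DD u a z : ℝ) : ℂ) := by
  have hsub : ball (0 : ℂ) 1 ⊆ ball 0 2 := ball_subset_ball (by norm_num)
  have hU : ContDiffOn ℝ 2 (fun z => ((u z : ℝ) : ℂ)) B1 := by
    have h1 : ContDiffOn ℝ (⊤ : ℕ∞) (fun z => ((u z : ℝ) : ℂ)) B1 :=
      Complex.ofRealCLM.contDiff.comp_contDiffOn (hu.mono hsub)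
    exact h1.of_le (WithTop.coe_le_coe.2 (le_top : (2 : ℕ∞) ≤ ⊤))
  have hA : PTest (fun z => ((a z : ℝ) : ℂ)) := by
    refine ⟨Complex.ofRealCLM.contDiff.comp ha, ?_, ?_⟩
    · exact hc.comp_left (g := fun x : ℝ => (x : ℂ)) (by simp)
    · exact (weyl2_supp fun z h0 => by rw [h0]; simp).trans hs
  have h0 := Pool.Agent.Helper13.Dil.st_STOKES _ _ hU hA
  have hud : ∀ z ∈ ball (0 : ℂ) 1, DifferentiableAt ℝ u z := fun z hz =>
    (hu.differentiableOn (by simp)).differentiableAt (isOpen_ball.mem_nhds (hsub hz))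
  have had : ∀ z, DifferentiableAt ℝ a z := fun z => (ha.differentiable (by simp)) z
  have hduc : ContinuousOn (fderiv ℝ u) (ball 0 2) :=
    hu.continuousOn_fderiv_of_isOpen isOpen_ball (by simp)
  have hdac : Continuous (fderiv ℝ a) := ha.continuous_fderiv (by simp)
  have c1 : ∀ v : ℂ, ContinuousOn (fun z => ((fderiv ℝ u z v : ℝ) : ℂ)) (ball 0 2) := fun v =>
    Complex.continuous_ofReal.comp_continuousOn (hduc.clm_apply continuousOn_const)
  have c2 : ∀ v : ℂ, ContinuousOn (fun z => ((fderiv ℝ a z v : ℝ) : ℂ)) (ball 0 2) := fun v =>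
    (Complex.continuous_ofReal.comp (hdac.clm_apply continuous_const)).continuousOn
  have i1 : Integrable (fun z => (ux u z : ℂ) * (uy a z : ℂ) - (uy u z : ℂ) * (ux a z : ℂ))
      (volume.restrict (ball (0 : ℂ) 1)) :=
    weyl2_int one_pos (by
      rw [mul_one]
      exact ((c1 1).mul (c2 I)).sub ((c1 I).mul (c2 1)))
  have i2 : Integrable (fun z => -I * ((DD u a z : ℝ) : ℂ))
      (volume.restrict (ball (0 : ℂ) 1)) :=
    weyl2_int one_pos (by
      rw [mul_one]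
      have h3 : (fun z => -I * ((DD u a z : ℝ) : ℂ)) = fun z =>
          -I * ((ux u z : ℂ) * (ux a z : ℂ) + (uy u z : ℂ) * (uy a z : ℂ)) := by
        funext z
        unfold DD
        push_cast
        ring
      rw [h3]
      exact continuousOn_const.mul (((c1 1).mul (c2 1)).add ((c1 I).mul (c2 I))))
  have e1 : ∫ z in ball (0 : ℂ) 1, cc u z * weyl2_ph a z =
      ∫ z in ball (0 : ℂ) 1, (((ux u z : ℂ) * (uy a z : ℂ) - (uy u z : ℂ) * (ux a z : ℂ)) +
        -I * ((DD u a z : ℝ) : ℂ)) := by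
    congr 1
    funext z
    unfold cc weyl2_ph DD
    push_cast
    linear_combination ((uy u z : ℂ) * (ux a z : ℂ)) * I_sq
  rw [e1, integral_add i1 i2, integral_const_mul]
  have e2 : ∫ z in ball (0 : ℂ) 1, ((ux u z : ℂ) * (uy a z : ℂ) - (uy u z : ℂ) * (ux a z : ℂ)) =
      0 := by
    refine Eq.trans ?_ h0
    refine setIntegral_congr_fun measurableSet_ball fun z hz => ?_
    show (ux u z : ℂ) * (uy a z : ℂ) - (uy u z : ℂ) * (ux a z : ℂ) =
      fderiv ℝ (fun z => ((u z : ℝ) : ℂ)) z 1 * fderiv ℝ (fun z => ((a z : ℝ) : ℂ)) z I -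
        fderiv ℝ (fun z => ((u z : ℝ) : ℂ)) z I * fderiv ℝ (fun z => ((a z : ℝ) : ℂ)) z 1
    rw [weyl2_cast (hud z hz), weyl2_cast (hud z hz), weyl2_cast (had z), weyl2_cast (had z)]
    rfl
  rw [e2, zero_add]
  congr 1
  exact integral_ofReal

/-- the theorem on the unit disc -/
theorem weyl2_unit (u : ℕ → ℂ → ℝ) (hu : ∀ j, ContDiffOn ℝ (⊤ : ℕ∞) (u j) (ball 0 2))
    (hC : ∀ ε : ℝ, 0 < ε → ∃ J : ℕ, ∀ i j, J ≤ i → J ≤ j →
      ∫ z in ball (0 : ℂ) 1, ‖cc (u i) z - cc (u j) z‖ ^ 2 ≤ ε)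
    (hT : ∀ a : ℂ → ℝ, ContDiff ℝ (⊤ : ℕ∞) a → HasCompactSupport a → tsupport a ⊆ ball 0 1 →
      Tendsto (fun j => ∫ z in ball (0 : ℂ) 1, DD (u j) a z) atTop (𝓝 0)) :
    ∃ h : ℂ → ℂ, DifferentiableOn ℂ h (ball 0 1) ∧
      IntegrableOn (fun z => ‖h z‖ ^ 2) (ball (0 : ℂ) 1) ∧
      Tendsto (fun j => ∫ z in ball (0 : ℂ) 1, ‖cc (u j) z - h z‖ ^ 2) atTop (𝓝 0) := by
  have hfin := weyl2_fin (0 : ℂ) 1
  have hm : ∀ j, MemLp (cc (u j)) 2 (volume.restrict (ball (0 : ℂ) 1)) := fun j =>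
    weyl2_mem one_pos (by rw [mul_one]; exact weyl2_cc (hu j))
  let f : ℕ → Lp ℂ 2 (volume.restrict (ball (0 : ℂ) 1)) := fun j => (hm j).toLp _
  have hf : ∀ j, f j =ᵐ[volume.restrict (ball (0 : ℂ) 1)] cc (u j) := fun j => (hm j).coeFn_toLp
  have hd : ∀ i j, ‖f i - f j‖ ^ 2 = ∫ z in ball (0 : ℂ) 1, ‖cc (u i) z - cc (u j) z‖ ^ 2 := by
    intro i j
    rw [weyl2_norm]
    refine integral_congr_ae ?_
    filter_upwards [hf i, hf j, Lp.coeFn_sub (f i) (f j)] with z h1 h2 h3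
    rw [h3, Pi.sub_apply, h1, h2]
  have hcau : CauchySeq f := by
    rw [Metric.cauchySeq_iff']
    intro ε hε
    obtain ⟨J, hJ⟩ := hC (ε ^ 2 / 2) (by positivity)
    refine ⟨J, fun k hk => ?_⟩
    rw [dist_eq_norm]
    have h1 := hJ k J hk le_rfl
    rw [← hd] at h1
    have h2 : ‖f k - f J‖ ^ 2 < ε ^ 2 := by
      have : 0 < ε ^ 2 := by positivity
      linarith
    exact lt_of_pow_lt_pow_left₀ 2 hε.le h2
  obtain ⟨c, hc⟩ := cauchySeq_tendsto_of_complete hcau
  -- the limit annihilates the multipliers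
  have hz : ∀ a : ℂ → ℝ, ContDiff ℝ (⊤ : ℕ∞) a → HasCompactSupport a → tsupport a ⊆ ball 0 1 →
      ∫ z in ball (0 : ℂ) 1, c z * weyl2_ph a z = 0 := by
    intro a ha hac has
    have hφ : MemLp (weyl2_ph a) 2 (volume.restrict (ball (0 : ℂ) 1)) :=
      weyl2_mem one_pos (weyl2_ph_cont ha).continuousOn
    have h1 := weyl2_pair hφ hc
    have h2 : ∀ j, ∫ z in ball (0 : ℂ) 1, (f j) z * weyl2_ph a z =
        -I * ((∫ z in ball (0 : ℂ) 1, DD (u j) a z : ℝ) : ℂ) := by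
      intro j
      rw [← weyl2_stokes (hu j) ha hac has]
      refine integral_congr_ae ?_
      filter_upwards [hf j] with z h3
      rw [h3]
    simp only [h2] at h1
    have h3 : Tendsto (fun j => -I * ((∫ z in ball (0 : ℂ) 1, DD (u j) a z : ℝ) : ℂ)) atTop
        (𝓝 (-I * ((0 : ℝ) : ℂ))) :=
      ((Complex.continuous_ofReal.tendsto 0).comp (hT a ha hac has)).const_mul _
    have h4 := tendsto_nhds_unique h1 h3
    rw [h4]
    simp
  have hcm : MemLp (fun z => c z) 2 (volume.restrict (ball (0 : ℂ) 1)) := Lp.memLp c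
  have hw : WClosed (fun z => c z) (fun z => I * c z) := by
    intro a ha
    obtain ⟨ha1, ha2, ha3⟩ := ha
    have had : ∀ z, DifferentiableAt ℝ a z := fun z => (ha1.differentiable (by simp)) z
    have r1 : ContDiff ℝ (⊤ : ℕ∞) fun z => (a z).re := Complex.reCLM.contDiff.comp ha1
    have r2 : ContDiff ℝ (⊤ : ℕ∞) fun z => (a z).im := Complex.imCLM.contDiff.comp ha1
    have s1 : HasCompactSupport fun z => (a z).re := ha2.comp_left (g := Complex.re) (by simp)
    have s2 : HasCompactSupport fun z => (a z).im := ha2.comp_left (g := Complex.im) (by simp)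
    have t1 : tsupport (fun z => (a z).re) ⊆ ball 0 1 :=
      (weyl2_supp fun z h0 => by rw [h0]; simp).trans ha3
    have t2 : tsupport (fun z => (a z).im) ⊆ ball 0 1 :=
      (weyl2_supp fun z h0 => by rw [h0]; simp).trans ha3
    have j1 : Integrable (fun z => c z * weyl2_ph (fun z => (a z).re) z)
        (volume.restrict (ball (0 : ℂ) 1)) :=
      hcm.integrable_mul (weyl2_mem one_pos (weyl2_ph_cont r1).continuousOn)
    have j2 : Integrable (fun z => c z * weyl2_ph (fun z => (a z).im) z)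
        (volume.restrict (ball (0 : ℂ) 1)) :=
      hcm.integrable_mul (weyl2_mem one_pos (weyl2_ph_cont r2).continuousOn)
    have e1 : ∫ z in B1, (c z * dy a z - I * c z * dx a z) =
        ∫ z in ball (0 : ℂ) 1, (c z * weyl2_ph (fun z => (a z).re) z +
          I * (c z * weyl2_ph (fun z => (a z).im) z)) := by
      show ∫ z in ball (0 : ℂ) 1, _ = _
      congr 1
      funext z
      unfold weyl2_ph ux uy dx dy
      rw [weyl2_re (had z), weyl2_re (had z), weyl2_im (had z), weyl2_im (had z)]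
      have h1 : ∀ w : ℂ, w = (w.re : ℂ) + I * (w.im : ℂ) := fun w => by
        rw [mul_comm]
        exact (Complex.re_add_im w).symm
      conv_lhs => rw [h1 (fderiv ℝ a z I), h1 (fderiv ℝ a z 1)]
      ring
    rw [e1, integral_add j1 (j2.const_mul I), integral_const_mul, hz _ r1 s1 t1, hz _ r2 s2 t2]
    simp
  obtain ⟨h, hh1, hh2⟩ := Pool.Agent.Helper71.Dil.st_WEYL I (fun z => c z)
    (by show 0 < I.im; simp) hcm hw
  have htc : ∀ z, tc I z = z := fun z => by
    unfold tc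
    rw [mul_comm]
    exact Complex.re_add_im z
  have himg : tc I '' B1 = ball 0 1 := by
    ext z
    simp only [Set.mem_image, htc, exists_eq_right]
    rfl
  rw [himg] at hh1
  refine ⟨h, hh1, ?_, ?_⟩
  · have h6 : Integrable (fun z => ‖c z‖ ^ 2) (volume.restrict (ball (0 : ℂ) 1)) :=
      (memLp_two_iff_integrable_sq_norm hcm.1).1 hcm
    have hh3 : ∀ᵐ z ∂(volume.restrict (ball (0 : ℂ) 1)), c z = h (tc I z) := hh2
    refine h6.congr ?_
    filter_upwards [hh3] with z h2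
    rw [h2, htc]
  have e3 : ∀ j, ∫ z in ball (0 : ℂ) 1, ‖cc (u j) z - h z‖ ^ 2 = ‖f j - c‖ ^ 2 := by
    intro j
    rw [weyl2_norm]
    refine integral_congr_ae ?_
    have hh3 : ∀ᵐ z ∂(volume.restrict (ball (0 : ℂ) 1)), c z = h (tc I z) := hh2
    filter_upwards [hf j, hh3, Lp.coeFn_sub (f j) c] with z h1 h2 h3
    rw [h3, Pi.sub_apply, h1, h2, htc]
  simp only [e3]
  have h5 : Tendsto (fun j => ‖f j - c‖ ^ 2) atTop (𝓝 (‖c - c‖ ^ 2)) :=
    ((hc.sub tendsto_const_nhds).norm).pow 2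
  simpa using h5

/-! ### scaling -/

theorem weyl2_ball {z0 : ℂ} {r : ℝ} (hr : 0 < r) (z : ℂ) (R : ℝ) :
    z0 + r • z ∈ ball z0 (R * r) ↔ z ∈ ball (0 : ℂ) R := by
  rw [mem_ball, mem_ball, dist_eq_norm, dist_zero_right, add_sub_cancel_left, norm_smul,
    Real.norm_eq_abs, abs_of_pos hr, mul_comm, mul_lt_mul_iff_left₀ hr]

theorem weyl2_scale {E : Type} [NormedAddCommGroup E] [NormedSpace ℝ E] (F : ℂ → E) (z0 : ℂ)
    {r : ℝ} (hr : 0 < r) :
    ∫ w in ball z0 r, F w = r ^ 2 • ∫ z in ball (0 : ℂ) 1, F (z0 + r • z) := by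
  have h1 : ∫ z in ball (0 : ℂ) 1, F (z0 + r • z) =
      ∫ z, (fun x => (ball z0 r).indicator F (z0 + x)) (r • z) := by
    rw [← integral_indicator measurableSet_ball]
    congr 1
    funext z
    show (ball (0 : ℂ) 1).indicator (fun z => F (z0 + r • z)) z =
      (ball z0 r).indicator F (z0 + r • z)
    have hb := weyl2_ball (z0 := z0) hr z 1
    rw [one_mul] at hb
    by_cases hz : z ∈ ball (0 : ℂ) 1
    · rw [Set.indicator_of_mem hz, Set.indicator_of_mem (hb.2 hz)]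
    · rw [Set.indicator_of_notMem hz, Set.indicator_of_notMem fun h => hz (hb.1 h)]
  rw [h1, Measure.integral_comp_smul volume (fun x => (ball z0 r).indicator F (z0 + x)) r,
    Complex.finrank_real_complex,
    abs_of_nonneg (by positivity), smul_smul, mul_inv_cancel₀ (by positivity), one_smul,
    integral_add_left_eq_self (μ := volume) (fun x => (ball z0 r).indicator F x) z0,
    integral_indicator measurableSet_ball]

theorem weyl2_scaleI (F : ℂ → ℝ) (z0 : ℂ) {r : ℝ} (hr : 0 < r)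
    (hF : IntegrableOn (fun z => F (z0 + r • z)) (ball (0 : ℂ) 1)) :
    IntegrableOn F (ball z0 r) := by
  rw [← integrable_indicator_iff measurableSet_ball] at hF ⊢
  have h1 := (hF.comp_smul (inv_ne_zero hr.ne')).comp_sub_right z0
  refine h1.congr (Eventually.of_forall fun w => ?_)
  show (ball (0 : ℂ) 1).indicator (fun z => F (z0 + r • z)) (r⁻¹ • (w - z0)) =
    (ball z0 r).indicator F w
  have h2 : z0 + r • (r⁻¹ • (w - z0)) = w := by
    rw [smul_smul, mul_inv_cancel₀ hr.ne', one_smul, add_sub_cancel]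
  have hb := weyl2_ball (z0 := z0) hr (r⁻¹ • (w - z0)) 1
  rw [one_mul, h2] at hb
  by_cases hw : w ∈ ball z0 r
  · rw [Set.indicator_of_mem hw, Set.indicator_of_mem (hb.1 hw), h2]
  · rw [Set.indicator_of_notMem hw, Set.indicator_of_notMem fun h => hw (hb.2 h)]

theorem weyl2_fd {u : ℂ → ℝ} {z0 z : ℂ} {r : ℝ} (hu : DifferentiableAt ℝ u (z0 + r • z)) (v : ℂ) :
    fderiv ℝ (fun z => u (z0 + r • z)) z v = r * fderiv ℝ u (z0 + r • z) v := by
  have h0 : HasFDerivAt (fun z : ℂ => z0 + r • z) (r • ContinuousLinearMap.id ℝ ℂ) z :=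
    ((hasFDerivAt_id (𝕜 := ℝ) z).const_smul r).const_add z0
  have h1 := hu.hasFDerivAt.comp z h0
  have h2 : fderiv ℝ (fun z => u (z0 + r • z)) z =
      (fderiv ℝ u (z0 + r • z)).comp (r • ContinuousLinearMap.id ℝ ℂ) := h1.fderiv
  rw [h2]
  show fderiv ℝ u (z0 + r • z) (r • v) = r * fderiv ℝ u (z0 + r • z) v
  rw [map_smul, smul_eq_mul]

/-- **Module WEYL2.** -/
theorem st_WEYL2 : ST_WEYL2 := by
  intro z0 r u hr hu hC hT
  have hsm : ContDiff ℝ (⊤ : ℕ∞) fun z : ℂ => z0 + r • z :=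
    contDiff_const.add (contDiff_id.const_smul r)
  have hr2 : 0 < r ^ 2 := by positivity
  have hdiff : ∀ j, ∀ z ∈ ball (0 : ℂ) 2, DifferentiableAt ℝ (u j) (z0 + r • z) := fun j z hz =>
    ((hu j).differentiableOn (by simp)).differentiableAt
      (isOpen_ball.mem_nhds ((weyl2_ball hr z 2).2 hz))
  have hsub : ball (0 : ℂ) 1 ⊆ ball 0 2 := ball_subset_ball (by norm_num)
  have hcc : ∀ j, ∀ z ∈ ball (0 : ℂ) 2, cc (fun z => u j (z0 + r • z)) z =
      (r : ℂ) * cc (u j) (z0 + r • z) := by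
    intro j z hz
    unfold cc ux uy
    rw [weyl2_fd (hdiff j z hz), weyl2_fd (hdiff j z hz)]
    push_cast
    ring
  have key : ∃ h : ℂ → ℂ, DifferentiableOn ℂ h (ball 0 1) ∧
      IntegrableOn (fun z => ‖h z‖ ^ 2) (ball (0 : ℂ) 1) ∧
      Tendsto (fun j => ∫ z in ball (0 : ℂ) 1, ‖cc (fun z => u j (z0 + r • z)) z - h z‖ ^ 2) atTop
        (𝓝 0) := by
    refine weyl2_unit (fun j z => u j (z0 + r • z)) ?_ ?_ ?_
    · intro j
      exact (hu j).comp hsm.contDiffOn fun z hz => (weyl2_ball hr z 2).2 hz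
    · intro ε hε
      obtain ⟨J, hJ⟩ := hC ε hε
      refine ⟨J, fun i j hi hj => ?_⟩
      refine le_trans (le_of_eq ?_) (hJ i j hi hj)
      rw [weyl2_scale (fun w => ‖cc (u i) w - cc (u j) w‖ ^ 2) z0 hr, smul_eq_mul,
        ← integral_const_mul]
      refine setIntegral_congr_fun measurableSet_ball fun z hz => ?_
      show ‖cc (fun z => u i (z0 + r • z)) z - cc (fun z => u j (z0 + r • z)) z‖ ^ 2 =
        r ^ 2 * ‖cc (u i) (z0 + r • z) - cc (u j) (z0 + r • z)‖ ^ 2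
      rw [hcc i z (hsub hz), hcc j z (hsub hz), ← mul_sub, norm_mul, mul_pow, Complex.norm_real,
        Real.norm_eq_abs, sq_abs]
    · intro a ha hac has
      have hrc : r ≠ 0 := hr.ne'
      have hinv : ∀ z : ℂ, r⁻¹ • (z0 + r • z - z0) = z := fun z => by
        rw [add_sub_cancel_left, smul_smul, inv_mul_cancel₀ hrc, one_smul]
      have hinv2 : ∀ w : ℂ, z0 + r • (r⁻¹ • (w - z0)) = w := fun w => by
        rw [smul_smul, mul_inv_cancel₀ hrc, one_smul, add_sub_cancel]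
      let K : Set ℂ := (fun z : ℂ => z0 + r • z) '' tsupport a
      have hK : IsCompact K := hac.image hsm.continuous
      have hAK : ∀ w, w ∉ K → a (r⁻¹ • (w - z0)) = 0 := by
        intro w hw
        by_contra h0
        exact hw ⟨r⁻¹ • (w - z0), subset_tsupport a h0, hinv2 w⟩
      have hA := hT (fun w => a (r⁻¹ • (w - z0)))
        (ha.comp ((contDiff_id.sub contDiff_const).const_smul r⁻¹))
        (HasCompactSupport.intro hK hAK) (by
          refine Set.Subset.trans (closure_minimal (fun w hw => ?_) hK.isClosed)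
            (?_ : K ⊆ ball z0 r)
          · by_contra h0
            exact hw (hAK w h0)
          · rintro _ ⟨z, hz, rfl⟩
            have hb := weyl2_ball (z0 := z0) hr z 1
            rw [one_mul] at hb
            exact hb.2 (has hz))
      refine hA.congr fun j => ?_
      rw [weyl2_scale (fun w => DD (u j) (fun w => a (r⁻¹ • (w - z0))) w) z0 hr, smul_eq_mul,
        ← integral_const_mul]
      refine setIntegral_congr_fun measurableSet_ball fun z hz => ?_
      show r ^ 2 * DD (u j) (fun w => a (r⁻¹ • (w - z0))) (z0 + r • z) =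
        DD (fun z => u j (z0 + r • z)) a z
      have hA1 : ∀ v : ℂ, fderiv ℝ (fun w => a (r⁻¹ • (w - z0))) (z0 + r • z) v =
          r⁻¹ * fderiv ℝ a z v := by
        intro v
        have hd : Differentiable ℝ (fun w => a (r⁻¹ • (w - z0))) :=
          (ha.comp ((contDiff_id.sub contDiff_const).const_smul r⁻¹)).differentiable (by simp)
        have h1 := weyl2_fd (z := z) (z0 := z0) (r := r) (hd (z0 + r • z)) v
        simp only [hinv] at h1
        rw [h1, ← mul_assoc, inv_mul_cancel₀ hrc, one_mul]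
      unfold DD ux uy
      rw [hA1, hA1, weyl2_fd (hdiff j z (hsub hz)), weyl2_fd (hdiff j z (hsub hz))]
      field_simp
  obtain ⟨h, hh1, hh3, hh2⟩ := key
  refine ⟨fun w => (r : ℂ)⁻¹ * h ((r : ℂ)⁻¹ * (w - z0)), ?_, ?_, ?_⟩
  · refine DifferentiableOn.const_mul (hh1.comp ?_ ?_) _
    · exact ((differentiable_id.sub_const z0).const_mul _).differentiableOn
    · intro w hw
      rw [mem_ball, dist_eq_norm] at hw
      rw [mem_ball, dist_zero_right, norm_mul, norm_inv, Complex.norm_real, Real.norm_eq_abs,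
        abs_of_pos hr, inv_mul_lt_iff₀ hr, mul_one]
      exact hw
  · have hrc : (r : ℂ) ≠ 0 := by exact_mod_cast hr.ne'
    refine weyl2_scaleI (fun w => ‖(r : ℂ)⁻¹ * h ((r : ℂ)⁻¹ * (w - z0))‖ ^ 2) z0 hr ?_
    refine (hh3.const_mul (‖(r : ℂ)⁻¹‖ ^ 2)).congr (Eventually.of_forall fun z => ?_)
    show ‖(r : ℂ)⁻¹‖ ^ 2 * ‖h z‖ ^ 2 = ‖(r : ℂ)⁻¹ * h ((r : ℂ)⁻¹ * (z0 + r • z - z0))‖ ^ 2
    have h1 : (r : ℂ)⁻¹ * (z0 + r • z - z0) = z := by
      rw [add_sub_cancel_left, Complex.real_smul, inv_mul_cancel_left₀ hrc]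
    rw [h1, norm_mul, mul_pow]
  · refine hh2.congr fun j => ?_
    rw [weyl2_scale (fun w => ‖cc (u j) w - (r : ℂ)⁻¹ * h ((r : ℂ)⁻¹ * (w - z0))‖ ^ 2) z0 hr,
      smul_eq_mul, ← integral_const_mul]
    refine setIntegral_congr_fun measurableSet_ball fun z hz => ?_
    show ‖cc (fun z => u j (z0 + r • z)) z - h z‖ ^ 2 = r ^ 2 * ‖cc (u j) (z0 + r • z) -
      (r : ℂ)⁻¹ * h ((r : ℂ)⁻¹ * (z0 + r • z - z0))‖ ^ 2
    have hrc : (r : ℂ) ≠ 0 := by exact_mod_cast hr.ne'
    have h1 : (r : ℂ)⁻¹ * (z0 + r • z - z0) = z := by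
      rw [add_sub_cancel_left, Complex.real_smul, inv_mul_cancel_left₀ hrc]
    rw [h1, hcc j z (hsub hz)]
    have h2 : (r : ℂ) * cc (u j) (z0 + r • z) - h z =
        (r : ℂ) * (cc (u j) (z0 + r • z) - (r : ℂ)⁻¹ * h z) := by
      rw [mul_sub, mul_inv_cancel_left₀ hrc]
    rw [h2, norm_mul, mul_pow, Complex.norm_real, Real.norm_eq_abs, sq_abs]

end Pool.Agent.Helper96.MP
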